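import Mathlib
import Pool.Agent.Helper85.Levi.Embed

/-!
# Every finite bipartite `C₄`-free graph is a subgraph of the Levi graph of a finite plane
-/

namespace Pool.Agent.Results.MP_b0d1ef_co.EmbedsInFinitePlane

open Pool.Agent.Helper85.Levi

/-- Every finite bipartite `C₄`-free graph `H` is (isomorphic to) a subgraph of the Levi graph of
some finite projective plane. -/
theorem result {V : Type*} [Finite V] (H : SimpleGraph V) (hbip : H.IsBipartite)
    (hC4 : (SimpleGraph.cycleGraph 4).Free H) :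
    ∃ (P L : Type) (_ : Finite P) (_ : Finite L) (I : P → L → Prop),
      IsProjectivePlane I ∧ H.IsContained (leviGraph I) := by
  classical
  obtain ⟨col⟩ := hbip
  let A : Type _ := {v : V // col v = 0}
  let B : Type _ := {v : V // col v ≠ 0}
  let J : A → B → Prop := fun p l => H.Adj p.1 l.1
  have hJ : ∀ p q : A, ∀ l l' : B, p ≠ q → J p l → J q l → J p l' → J q l' → l = l' := by
    rintro ⟨p, hp⟩ ⟨q, hq⟩ ⟨l, hl⟩ ⟨l', hl'⟩ hpq h1 h2 h3 h4
    by_contra hll
    have hpq' : p ≠ q := fun h => hpq (Subtype.ext h)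
    have hll' : l ≠ l' := fun h => hll (Subtype.ext h)
    have hpl : p ≠ l := h1.ne
    have hql : q ≠ l := h2.ne
    have hpl' : p ≠ l' := h3.ne
    have hql' : q ≠ l' := h4.ne
    apply hC4
    refine ⟨⟨⟨![p, l, q, l'], ?_⟩, ?_⟩⟩
    · intro i j hij
      have h1' : H.Adj p l := h1
      have h2' : H.Adj q l := h2
      have h3' : H.Adj p l' := h3
      have h4' : H.Adj q l' := h4
      rw [SimpleGraph.cycleGraph_adj] at hij
      fin_cases i <;> fin_cases j <;>
        first
        | exact h1' | exact h1'.symm | exact h2' | exact h2'.symm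
        | exact h3' | exact h3'.symm | exact h4' | exact h4'.symm
        | exact absurd hij (by decide)
    · intro i j hij
      have hij' : (![p, l, q, l'] : Fin 4 → V) i = (![p, l, q, l'] : Fin 4 → V) j := hij
      fin_cases i <;> fin_cases j <;> simp_all [ne_comm]
  obtain ⟨F, _, _, mul, X, Y, s, t, hmul, hX, hs, hinc⟩ := exists_presemifield J hJ
  refine ⟨(F × F) ⊕ Option F, (F × F) ⊕ Option F, inferInstance, inferInstance, inc mul,
    isProjectivePlane_inc hmul, ?_⟩
  let φ : V → ((F × F) ⊕ Option F) ⊕ ((F × F) ⊕ Option F) := fun v =>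
    if h : col v = 0 then Sum.inl (Sum.inl (X ⟨v, h⟩, Y ⟨v, h⟩))
    else Sum.inr (Sum.inl (s ⟨v, h⟩, t ⟨v, h⟩))
  have hφ : ∀ u v, H.Adj u v → col u = 0 → (leviGraph (inc mul)).Adj (φ u) (φ v) := by
    intro u v huv hu
    have hv : col v ≠ 0 := by
      intro hv
      exact col.valid huv (hu.trans hv.symm)
    simp only [φ, dif_pos hu, dif_neg hv]
    exact Or.inl ⟨_, _, rfl, rfl, hinc ⟨u, hu⟩ ⟨v, hv⟩ huv⟩
  refine ⟨⟨⟨φ, ?_⟩, ?_⟩⟩
  · intro u v huv
    by_cases hu : col u = 0
    · exact hφ u v huv hu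
    · have hv : col v = 0 := by
        have h1 := col.valid huv
        have key : ∀ a b : Fin 2, a ≠ b → a ≠ 0 → b = 0 := by decide
        exact key _ _ h1 hu
      exact (hφ v u huv.symm hv).symm
  · intro u v huv
    have huv' : φ u = φ v := huv
    by_cases hu : col u = 0 <;> by_cases hv : col v = 0
    · simp only [φ, dif_pos hu, dif_pos hv, Sum.inl.injEq, Prod.mk.injEq] at huv'
      exact congrArg Subtype.val (hX huv'.1)
    · simp only [φ, dif_pos hu, dif_neg hv] at huv'
      cases huv'
    · simp only [φ, dif_neg hu, dif_pos hv] at huv'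
      cases huv'
    · simp only [φ, dif_neg hu, dif_neg hv, Sum.inr.injEq, Sum.inl.injEq, Prod.mk.injEq] at huv'
      exact congrArg Subtype.val (hs huv'.1)

end Pool.Agent.Results.MP_b0d1ef_co.EmbedsInFinitePlane
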